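import Mathlib

/-!
Haight's question on integer multiples and unions of integer dilates: the negated form holds.

Route: Kronecker's theorem for the logarithms of the primes (proved here from scratch), the Chebyshev
bounds of Mathlib (many primes in `(A, 8 A]`), and a set `E` obtained from `(16, 32)` by removing small
Bohr type sets `{y : |xi log y - k| <= delta for some integer k}`.
-/

set_option autoImplicit false
open MeasureTheory Set Filter Topology
open scoped ENNReal Real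

namespace Pool.Agent.Results.MP_bfec62_an.Haight

/-- `e x = exp (2 π i x)`. -/
noncomputable def e (x : ℝ) : ℂ := Complex.exp ((2 * π * x : ℝ) * Complex.I)

theorem e_add (x y : ℝ) : e (x + y) = e x * e y := by
  unfold e
  rw [← Complex.exp_add]
  congr 1
  push_cast
  ring

theorem e_zero : e 0 = 1 := by simp [e]

theorem norm_e (x : ℝ) : ‖e x‖ = 1 := by
  unfold e
  exact Complex.norm_exp_ofReal_mul_I _

theorem e_nat_mul (n : ℕ) (x : ℝ) : e (n * x) = e x ^ n := by
  induction n with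
  | zero => simp [e_zero]
  | succ n ih => rw [Nat.cast_succ, add_mul, one_mul, e_add, ih, pow_succ]

theorem e_sum {ι : Type*} (s : Finset ι) (f : ι → ℝ) : e (∑ i ∈ s, f i) = ∏ i ∈ s, e (f i) := by
  classical
  induction s using Finset.induction_on with
  | empty => simp [e_zero]
  | insert a s ha ih => rw [Finset.sum_insert ha, Finset.prod_insert ha, e_add, ih]

theorem e_ne_one (x : ℝ) (h0 : x ≠ 0) (h1 : |x| < 1) : e x ≠ 1 := by
  intro h
  unfold e at h
  rw [Complex.exp_eq_one_iff] at h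
  obtain ⟨n, hn⟩ := h
  have h2 : (2 * π * x : ℝ) = n * (2 * π) := by
    have h3 : ((2 * π * x : ℝ) : ℂ) * Complex.I = ((n * (2 * π) : ℝ) : ℂ) * Complex.I := by
      rw [hn]; push_cast; ring
    have h4 := mul_right_cancel₀ Complex.I_ne_zero h3
    exact_mod_cast h4
  have h5 : x = n := by
    have : (2 * π : ℝ) ≠ 0 := by positivity
    have h6 : (2 * π) * x = (2 * π) * n := by linarith
    exact mul_left_cancel₀ this h6
  rw [h5] at h0 h1
  have h7 : |n| < 1 := by exact_mod_cast h1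
  rw [Int.abs_lt_one_iff] at h7
  rw [h7] at h0
  simp at h0

/-- A coefficient of a generalized trigonometric polynomial with distinct frequencies is bounded by
the supremum of the modulus on any half line. -/
theorem coeff_le {ι : Type*} (I : Finset ι) (c : ι → ℂ) (α : ι → ℝ) (T₀ M : ℝ)
    (hM : ∀ t ≥ T₀, ‖∑ i ∈ I, c i * e (α i * t)‖ ≤ M) (f : ι) (hf : f ∈ I)
    (hinj : ∀ g ∈ I, g ≠ f → α g ≠ α f) : ‖c f‖ ≤ M := by
  classical
  by_contra hlt
  push Not at hlt
  -- step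
  obtain ⟨h, hh0, hh⟩ : ∃ h : ℝ, 0 < h ∧ ∀ g ∈ I, |α g - α f| * h < 1 := by
    refine ⟨1 / (1 + ∑ g ∈ I, |α g - α f|), by positivity, ?_⟩
    intro g hg
    have h1 : |α g - α f| ≤ ∑ g ∈ I, |α g - α f| :=
      Finset.single_le_sum (f := fun g => |α g - α f|) (fun _ _ => abs_nonneg _) hg
    rw [mul_one_div, div_lt_one (by positivity)]
    linarith
  set q : ι → ℂ := fun g => e ((α g - α f) * h) with hq
  have hq1 : ∀ g ∈ I, g ≠ f → q g ≠ 1 := by
    intro g hg hgf
    apply e_ne_one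
    · exact mul_ne_zero (sub_ne_zero.mpr (hinj g hg hgf)) hh0.ne'
    · rw [abs_mul, abs_of_pos hh0]
      exact hh g hg
  -- the bound for every m
  set C : ℝ := ∑ g ∈ I.erase f, ‖c g‖ * (2 / ‖q g - 1‖) with hC
  have key : ∀ m : ℕ, ‖c f‖ * m ≤ m * M + C := by
    intro m
    have h1 : ∑ k ∈ Finset.range m, (∑ i ∈ I, c i * e (α i * (T₀ + k * h))) * e (-(α f * (T₀ + k * h)))
        = c f * m + ∑ g ∈ I.erase f, c g * e ((α g - α f) * T₀) * ∑ k ∈ Finset.range m, q g ^ k := by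
      have h2 : ∀ k ∈ Finset.range m, (∑ i ∈ I, c i * e (α i * (T₀ + k * h))) * e (-(α f * (T₀ + k * h)))
          = c f + ∑ g ∈ I.erase f, c g * e ((α g - α f) * T₀) * q g ^ k := by
        intro k _
        rw [Finset.sum_mul, ← Finset.add_sum_erase I _ hf]
        congr 1
        · rw [mul_assoc, ← e_add]
          simp [e_zero]
        · apply Finset.sum_congr rfl
          intro g _
          rw [mul_assoc, ← e_add, hq]
          simp only
          rw [← e_nat_mul, mul_assoc, ← e_add]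
          congr 2
          ring
      rw [Finset.sum_congr rfl h2, Finset.sum_add_distrib]
      congr 1
      · simp [mul_comm]
      · rw [Finset.sum_comm]
        apply Finset.sum_congr rfl
        intro g _
        rw [Finset.mul_sum]
    have h3 : ‖∑ k ∈ Finset.range m, (∑ i ∈ I, c i * e (α i * (T₀ + k * h))) * e (-(α f * (T₀ + k * h)))‖ ≤ m * M := by
      refine (norm_sum_le _ _).trans ?_
      have : ∀ k ∈ Finset.range m, ‖(∑ i ∈ I, c i * e (α i * (T₀ + k * h))) * e (-(α f * (T₀ + k * h)))‖ ≤ M := by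
        intro k _
        rw [norm_mul, norm_e, mul_one]
        apply hM
        have : 0 ≤ (k : ℝ) * h := by positivity
        linarith
      refine (Finset.sum_le_sum this).trans ?_
      simp
    have h4 : ‖∑ g ∈ I.erase f, c g * e ((α g - α f) * T₀) * ∑ k ∈ Finset.range m, q g ^ k‖ ≤ C := by
      refine (norm_sum_le _ _).trans ?_
      apply Finset.sum_le_sum
      intro g hg
      have hg' := Finset.mem_erase.mp hg
      rw [norm_mul, norm_mul, norm_e, mul_one]
      gcongr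
      rw [geom_sum_eq (hq1 g hg'.2 hg'.1), norm_div]
      gcongr
      refine (norm_sub_le _ _).trans ?_
      rw [norm_pow, hq]
      simp only
      rw [norm_e]
      norm_num
    rw [h1] at h3
    have h5 : ‖c f * m‖ ≤ ‖c f * m + ∑ g ∈ I.erase f, c g * e ((α g - α f) * T₀) * ∑ k ∈ Finset.range m, q g ^ k‖
        + ‖∑ g ∈ I.erase f, c g * e ((α g - α f) * T₀) * ∑ k ∈ Finset.range m, q g ^ k‖ := by
      have := norm_sub_le (c f * m + ∑ g ∈ I.erase f, c g * e ((α g - α f) * T₀) * ∑ k ∈ Finset.range m, q g ^ k)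
        (∑ g ∈ I.erase f, c g * e ((α g - α f) * T₀) * ∑ k ∈ Finset.range m, q g ^ k)
      rwa [add_sub_cancel_right] at this
    rw [norm_mul, Complex.norm_natCast] at h5
    linarith
  obtain ⟨m, hm⟩ := exists_nat_gt (C / (‖c f‖ - M))
  have h6 := key m
  rw [div_lt_iff₀ (by linarith)] at hm
  nlinarith


theorem one_add_e (x : ℝ) : ‖1 + e x‖ = 2 * |Real.cos (π * x)| := by
  have h1 : 1 + e x = e (x / 2) * ((2 * Real.cos (π * x) : ℝ) : ℂ) := by
    have h2 : e (x / 2) * e (x / 2) = e x := by rw [← e_add]; congr 1; ring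
    have h3 : e (x / 2) * e (-(x / 2)) = 1 := by rw [← e_add]; simp [e_zero]
    have h4 : ((2 * Real.cos (π * x) : ℝ) : ℂ) = e (x / 2) + e (-(x / 2)) := by
      unfold e
      push_cast
      rw [Complex.cos]
      have e1 : (2 * (π : ℂ) * ((x : ℂ) / 2) * Complex.I) = (π : ℂ) * x * Complex.I := by ring
      have e2 : (2 * (π : ℂ) * (-((x : ℂ) / 2)) * Complex.I) = -((π : ℂ) * x) * Complex.I := by ring
      rw [e1, e2]
      ring
    rw [h4, mul_add, h2, h3]
    ring
  rw [h1, norm_mul, norm_e, one_mul, Complex.norm_real, Real.norm_eq_abs, abs_mul]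
  simp

theorem one_add_e_le_two (x : ℝ) : ‖1 + e x‖ ≤ 2 := by
  rw [one_add_e]
  have := Real.abs_cos_le_one (π * x)
  linarith

theorem one_add_e_le (x ε : ℝ) (hε : 0 < ε) (hε' : ε ≤ 1 / 4) (h : ∀ k : ℤ, ε ≤ |x - k|) :
    ‖1 + e x‖ ≤ 2 * Real.cos (π * ε) := by
  rw [one_add_e]
  gcongr
  have h1 := h (round x)
  have h2 := abs_sub_round x
  have h3 : |Real.cos (π * x)| = |Real.cos (π * (x - round x))| := by
    rw [mul_sub, mul_comm π (round x : ℝ), Real.cos_sub_int_mul_pi, abs_mul]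
    simp
  rw [h3]
  have h4 : Real.cos (π * (x - round x)) = Real.cos (π * |x - round x|) := by
    rw [← Real.cos_abs, abs_mul, abs_of_pos Real.pi_pos]
  rw [h4, abs_of_nonneg]
  · apply Real.cos_le_cos_of_nonneg_of_le_pi
    · positivity
    · nlinarith [Real.pi_pos]
    · gcongr
  · apply Real.cos_nonneg_of_neg_pi_div_two_le_of_le
    · have : 0 ≤ π * |x - round x| := by positivity
      linarith [Real.pi_pos]
    · nlinarith [Real.pi_pos]

theorem prod_pow_inj (S : Finset ℕ) (hS : ∀ p ∈ S, p.Prime) (g f : S → ℕ)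
    (h : ∏ i : S, (i : ℕ) ^ g i = ∏ i : S, (i : ℕ) ^ f i) : g = f := by
  have key : ∀ g : S → ℕ, ∀ q : S, (∏ i : S, (i : ℕ) ^ g i).factorization q = g q := by
    intro g q
    rw [Nat.factorization_prod_apply]
    · rw [Finset.sum_eq_single q]
      · rw [Nat.Prime.factorization_pow (hS q q.2)]
        simp
      · intro b _ hb
        rw [Nat.Prime.factorization_pow (hS b b.2)]
        rw [Finsupp.single_apply, if_neg]
        intro h
        exact hb (Subtype.ext h)
      · simp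
    · intro i _
      exact pow_ne_zero _ (hS i i.2).ne_zero
  funext q
  rw [← key g q, ← key f q, h]

theorem kronecker (S : Finset ℕ) (hS : ∀ p ∈ S, p.Prime) (θ : ℕ → ℝ) (ε : ℝ) (hε : 0 < ε) (T₀ : ℝ) :
    ∃ t ≥ T₀, ∀ p ∈ S, ∃ k : ℤ, |t * Real.log p - θ p - k| < ε := by
  classical
  by_contra hcon
  push Not at hcon
  set ε' := min ε (1 / 4) with hε'
  have hε'0 : 0 < ε' := lt_min hε (by norm_num)
  have hε'1 : ε' ≤ 1 / 4 := min_le_right _ _
  set ρ := Real.cos (π * ε') with hρ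
  have hρ0 : 0 ≤ ρ := by
    apply Real.cos_nonneg_of_neg_pi_div_two_le_of_le
    · have : 0 ≤ π * ε' := by positivity
      linarith [Real.pi_pos]
    · nlinarith [Real.pi_pos]
  have hρ1 : ρ < 1 := by
    rw [hρ, ← Real.cos_zero]
    apply Real.cos_lt_cos_of_nonneg_of_le_pi (le_refl _)
    · nlinarith [Real.pi_pos]
    · positivity
  set s := Fintype.card S with hs
  have hpos : ∀ i : S, (0 : ℝ) < ((i : ℕ) : ℝ) := fun i => by exact_mod_cast (hS i i.2).pos
  -- main inequality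
  have main : ∀ n : ℕ, ((2 * n).choose n : ℝ) ^ s ≤ 4 ^ (n * s) * (ρ ^ 2) ^ n := by
    intro n
    set c : (S → ℕ) → ℂ := fun m => ∏ i : S, (((2 * n).choose (m i) : ℂ) * e (-(m i * θ i))) with hc
    set α : (S → ℕ) → ℝ := fun m => ∑ i : S, (m i : ℝ) * Real.log (i : ℕ) with hα
    have hexp : ∀ t : ℝ, ∏ i : S, (1 + e (t * Real.log (i : ℕ) - θ i)) ^ (2 * n) =
        ∑ m ∈ Fintype.piFinset (fun _ : S => Finset.range (2 * n + 1)), c m * e (α m * t) := by
      intro t
      have h1 : ∀ i : S, (1 + e (t * Real.log (i : ℕ) - θ i)) ^ (2 * n) =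
          ∑ m ∈ Finset.range (2 * n + 1), ((2 * n).choose m : ℂ) * e (m * (t * Real.log (i : ℕ) - θ i)) := by
        intro i
        rw [add_comm, add_pow]
        apply Finset.sum_congr rfl
        intro m _
        rw [one_pow, mul_one, mul_comm, e_nat_mul]
      simp_rw [h1]
      rw [Finset.prod_univ_sum]
      apply Finset.sum_congr rfl
      intro m _
      rw [hc, hα]
      simp only
      rw [Finset.sum_mul, e_sum, ← Finset.prod_mul_distrib]
      apply Finset.prod_congr rfl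
      intro i _
      rw [mul_assoc, ← e_add]
      congr 2
      ring
    have hbound : ∀ t ≥ T₀, ‖∑ m ∈ Fintype.piFinset (fun _ : S => Finset.range (2 * n + 1)), c m * e (α m * t)‖
        ≤ 4 ^ (n * s) * (ρ ^ 2) ^ n := by
      intro t ht
      rw [← hexp t]
      obtain ⟨p, hp, hp'⟩ := hcon t ht
      rw [← Finset.mul_prod_erase Finset.univ _ (Finset.mem_univ (⟨p, hp⟩ : S)), norm_mul, norm_pow, norm_prod]
      have h1 : ‖1 + e (t * Real.log p - θ p)‖ ≤ 2 * ρ :=
        one_add_e_le _ _ hε'0 hε'1 (fun k => (min_le_left _ _).trans (hp' k))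
      have h2 : ∏ i ∈ Finset.univ.erase (⟨p, hp⟩ : S), ‖(1 + e (t * Real.log (i : ℕ) - θ i)) ^ (2 * n)‖ ≤
          ∏ i ∈ Finset.univ.erase (⟨p, hp⟩ : S), (2 : ℝ) ^ (2 * n) := by
        apply Finset.prod_le_prod
        · intro i _; positivity
        · intro i _
          rw [norm_pow]
          gcongr
          exact one_add_e_le_two _
      have hs1 : 1 ≤ s := Fintype.card_pos_iff.mpr ⟨⟨p, hp⟩⟩
      rw [Finset.prod_const, Finset.card_erase_of_mem (Finset.mem_univ _), Finset.card_univ, ← hs] at h2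
      calc ‖1 + e (t * Real.log p - θ p)‖ ^ (2 * n) * _ ≤ (2 * ρ) ^ (2 * n) * ((2 : ℝ) ^ (2 * n)) ^ (s - 1) := by
            gcongr
        _ = 4 ^ (n * s) * (ρ ^ 2) ^ n := by
            obtain ⟨s', hs'⟩ : ∃ s', s = s' + 1 := ⟨s - 1, by omega⟩
            rw [hs', Nat.add_sub_cancel, mul_pow, ← pow_mul, ← pow_mul]
            have : (4 : ℝ) = 2 ^ 2 := by norm_num
            rw [this, ← pow_mul]
            have h3 : (2:ℝ) ^ (2 * (n * (s' + 1))) = 2 ^ (2 * n) * 2 ^ (2 * n * s') := by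
              rw [← pow_add]; congr 1; ring
            rw [h3]
            ring
    have hf : (fun _ : S => n) ∈ Fintype.piFinset (fun _ : S => Finset.range (2 * n + 1)) := by
      rw [Fintype.mem_piFinset]
      intro i
      rw [Finset.mem_range]
      omega
    have hco := coeff_le _ c α T₀ _ hbound (fun _ => n) hf (by
      intro g _ hgf heq
      apply hgf
      apply prod_pow_inj S hS
      have h3 : ∀ m : S → ℕ, Real.log ((∏ i : S, (i : ℕ) ^ m i : ℕ) : ℝ) = α m := by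
        intro m
        push_cast
        rw [Real.log_prod]
        · apply Finset.sum_congr rfl
          intro i _
          rw [Real.log_pow]
        · intro i _
          exact pow_ne_zero _ (hpos i).ne'
      have h4 := h3 g
      rw [heq, ← h3 (fun _ => n)] at h4
      have h5 : ∀ m : S → ℕ, (0 : ℝ) < ((∏ i : S, (i : ℕ) ^ m i : ℕ) : ℝ) := by
        intro m
        push_cast
        apply Finset.prod_pos
        intro i _
        exact pow_pos (hpos i) _
      have h6 := Real.log_injOn_pos (h5 g) (h5 _) h4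
      exact_mod_cast h6)
    refine le_trans (le_of_eq ?_) hco
    rw [hc]
    simp only
    rw [norm_prod]
    have : ∀ i : S, ‖((2 * n).choose n : ℂ) * e (-(n * θ i))‖ = ((2 * n).choose n : ℝ) := by
      intro i
      rw [norm_mul, norm_e, mul_one, Complex.norm_natCast]
    simp_rw [this]
    rw [Finset.prod_const, Finset.card_univ]
  -- let n tend to infinity
  have hlim := tendsto_pow_const_mul_const_pow_of_abs_lt_one s (show |ρ ^ 2| < 1 by
    rw [abs_of_nonneg (by positivity)]; nlinarith)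
  have hlim2 := hlim.const_mul ((2:ℝ) ^ s)
  rw [mul_zero] at hlim2
  obtain ⟨n, hn1, hn2⟩ := ((hlim2.eventually_lt_const (show (0:ℝ) < 1 by norm_num)).and (eventually_ge_atTop 1)).exists
  have h7 := Nat.four_pow_le_two_mul_self_mul_centralBinom n hn2
  have h8 : (4:ℝ) ^ n ≤ 2 * n * ((2 * n).choose n : ℝ) := by
    rw [Nat.centralBinom] at h7
    exact_mod_cast h7
  have h9 : (4:ℝ) ^ (n * s) ≤ (2 * n) ^ s * ((2 * n).choose n : ℝ) ^ s := by
    rw [pow_mul, ← mul_pow]
    gcongr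
  have h10 := main n
  have h11 : (4:ℝ) ^ (n * s) ≤ 4 ^ (n * s) * (2 ^ s * (n ^ s * (ρ ^ 2) ^ n)) := by
    calc (4:ℝ) ^ (n * s) ≤ (2 * n) ^ s * ((2 * n).choose n : ℝ) ^ s := h9
      _ ≤ (2 * n) ^ s * (4 ^ (n * s) * (ρ ^ 2) ^ n) := by gcongr
      _ = _ := by rw [mul_pow]; ring
  have h12 : (0:ℝ) < 4 ^ (n * s) := by positivity
  nlinarith

theorem theta_diff (A B : ℕ) (hAB : A ≤ B) : Chebyshev.theta (B : ℝ) - Chebyshev.theta (A : ℝ) ≤
    ((Finset.Ioc A B).filter Nat.Prime).card * Real.log (B : ℝ) := by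
  have h4 : Chebyshev.theta (B : ℝ) = Chebyshev.theta (A : ℝ) +
      ∑ p ∈ (Finset.Ioc A B).filter Nat.Prime, Real.log p := by
    unfold Chebyshev.theta
    rw [Nat.floor_natCast, Nat.floor_natCast, ← Finset.sum_union]
    · congr 1
      rw [← Finset.filter_union, Finset.Ioc_union_Ioc_eq_Ioc (Nat.zero_le A) hAB]
    · apply Finset.disjoint_filter_filter
      exact Finset.Ioc_disjoint_Ioc_of_le (le_refl _)
  rw [h4, add_sub_cancel_left]
  have h5 : ∀ p ∈ (Finset.Ioc A B).filter Nat.Prime, Real.log p ≤ Real.log (B : ℝ) := by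
    intro p hp
    rw [Finset.mem_filter, Finset.mem_Ioc] at hp
    apply Real.log_le_log
    · exact_mod_cast hp.2.pos
    · exact_mod_cast hp.1.2
  have := Finset.sum_le_card_nsmul _ _ _ h5
  rwa [nsmul_eq_mul] at this

theorem many_primes_aux (m : ℕ) (h20 : 20 ≤ m) (A : ℕ) (hA : A = 2 * m ^ 4) :
    m ≤ ((Finset.Ioc A (8 * A)).filter Nat.Prime).card := by
  by_contra hlt
  push Not at hlt
  have h1 := Chebyshev.theta_ge (8 * A)
  have h2 := Chebyshev.theta_le_log4_mul_x (x := A) (by positivity)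
  have h3 := theta_diff A (8 * A) (by linarith)
  have h20' : (20:ℝ) ≤ m := by exact_mod_cast h20
  have hmpos : (1:ℝ) ≤ m := by linarith
  have hcast : ((8 * A : ℕ) : ℝ) = (2 * m) ^ 4 := by
    rw [hA]; push_cast; ring
  have hsqrt : √((8 * A : ℕ) : ℝ) = (2 * m) ^ 2 := by
    rw [hcast, show ((2 * (m:ℝ)) ^ 4) = ((2 * (m:ℝ)) ^ 2) ^ 2 by ring, Real.sqrt_sq (by positivity)]
  have hlog : Real.log ((2 * (m:ℝ)) ^ 4) ≤ 8 * m := by
    rw [Real.log_pow]
    have := Real.log_le_sub_one_of_pos (show (0:ℝ) < 2 * m by positivity)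
    push_cast
    linarith
  have hlog0 : 0 ≤ Real.log ((2 * (m:ℝ)) ^ 4) := by
    rw [← hcast]
    exact Real.log_natCast_nonneg _
  have hlog1 : Real.log ((2 * (m:ℝ)) ^ 4 + 1) ≤ 16 * m := by
    have h6 : (2 * (m:ℝ)) ^ 4 + 1 ≤ (4 * m) ^ 4 := by
      have : (1:ℝ) ≤ (m:ℝ) ^ 4 := one_le_pow₀ hmpos
      nlinarith
    refine (Real.log_le_log (by positivity) h6).trans ?_
    rw [Real.log_pow]
    have := Real.log_le_sub_one_of_pos (show (0:ℝ) < 4 * m by positivity)
    push_cast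
    linarith
  have hK : (((Finset.Ioc A (8 * A)).filter Nat.Prime).card : ℝ) ≤ m := by
    exact_mod_cast hlt.le
  have hlog4 : Real.log 4 = 2 * Real.log 2 := by
    rw [show (4:ℝ) = 2 ^ 2 by norm_num, Real.log_pow]; norm_num
  have hl2 := Real.log_two_gt_d9
  have hAc : (A : ℝ) = 2 * (m:ℝ) ^ 4 := by rw [hA]; push_cast; ring
  rw [hsqrt, hcast] at h1
  rw [hlog4, hAc] at h2
  rw [hcast, hAc] at h3
  have h7 : (((Finset.Ioc A (8 * A)).filter Nat.Prime).card : ℝ) * Real.log ((2 * (m:ℝ)) ^ 4) ≤ m * (8 * m) := by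
    apply mul_le_mul hK hlog hlog0 (by positivity)
  have h8 : (2 * (2 * (m:ℝ)) ^ 2) * Real.log ((2 * (m:ℝ)) ^ 4) ≤ (2 * (2 * (m:ℝ)) ^ 2) * (8 * m) := by
    gcongr
  have h9 : 12 * (m:ℝ) ^ 4 * 0.69 ≤ (12 * (m:ℝ)^4) * Real.log 2 := by
    have : (0.69:ℝ) ≤ Real.log 2 := by linarith
    gcongr
  have h13 : (0:ℝ) < m := by linarith
  have h10 : 20 * (m:ℝ) ^ 3 ≤ (m:ℝ)^4 := by
    have := mul_le_mul_of_nonneg_right h20' (show (0:ℝ) ≤ (m:ℝ)^3 by positivity)
    calc 20 * (m:ℝ)^3 ≤ m * (m:ℝ)^3 := this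
      _ = (m:ℝ)^4 := by ring
  have h11 : 20 * (m:ℝ) ^ 2 ≤ (m:ℝ)^3 := by
    have := mul_le_mul_of_nonneg_right h20' (show (0:ℝ) ≤ (m:ℝ)^2 by positivity)
    calc 20 * (m:ℝ)^2 ≤ m * (m:ℝ)^2 := this
      _ = (m:ℝ)^3 := by ring
  have h12 : 20 * (m:ℝ) ≤ (m:ℝ)^2 := by nlinarith
  have e1 : (2 * (m:ℝ)) ^ 4 * Real.log 2 = 16 * (m:ℝ)^4 * Real.log 2 := by ring
  have e2 : 2 * Real.log 2 * (2 * (m:ℝ)^4) = 4 * (m:ℝ)^4 * Real.log 2 := by ring
  rw [e1] at h1
  rw [e2] at h2
  have e3 : (2 * (2 * (m:ℝ)) ^ 2) * (8 * m) = 64 * (m:ℝ)^3 := by ring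
  rw [e3] at h8
  have e4 : (m:ℝ) * (8 * m) = 8 * (m:ℝ)^2 := by ring
  rw [e4] at h7
  linarith

theorem many_primes (K A₀ : ℕ) : ∃ A : ℕ, A₀ ≤ A ∧ 1 ≤ A ∧
    K ≤ ((Finset.Ioc A (8 * A)).filter Nat.Prime).card := by
  have h := many_primes_aux (K + A₀ + 20) (by omega) (2 * (K + A₀ + 20) ^ 4) rfl
  have h2 : K + A₀ + 20 ≤ (K + A₀ + 20) ^ 4 := Nat.le_self_pow (by norm_num) _
  exact ⟨2 * (K + A₀ + 20) ^ 4, by omega, by omega, by omega⟩

/-- The stage lemma. -/
theorem stage (K : ℕ) (hK : 1 ≤ K) (A₀ : ℕ) (T₀ : ℝ) : ∃ A : ℕ, A₀ ≤ A ∧ ∃ ξ : ℝ, T₀ ≤ ξ ∧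
    (∀ r : ℕ, 1 ≤ r → r ≤ A → ∃ k : ℤ, |ξ * Real.log r - k| ≤ 1 / K) ∧
    (∀ θ : ℝ, ∃ n : ℕ, A < n ∧ n ≤ 8 * A ∧ ∃ k : ℤ, |ξ * Real.log n + θ - k| ≤ 2 / K) := by
  classical
  obtain ⟨A, hA0, hA1, hcard⟩ := many_primes K A₀
  obtain ⟨T, hTsub, hTcard⟩ := Finset.exists_subset_card_eq hcard
  set S := (Finset.Icc 1 (8 * A)).filter Nat.Prime with hS
  have hSp : ∀ p ∈ S, p.Prime := fun p hp => (Finset.mem_filter.mp hp).2
  set eq := Finset.equivFinOfCardEq hTcard with heq
  set th : ℕ → ℝ := fun p => if h : p ∈ T then ((eq ⟨p, h⟩ : ℕ) : ℝ) / K else 0 with hth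
  have hKpos : (0:ℝ) < K := by exact_mod_cast hK
  have hApos : (0:ℝ) < A := by exact_mod_cast hA1
  obtain ⟨ξ, hξ, hξ'⟩ := kronecker S hSp th (1 / (K * A)) (by positivity) T₀
  refine ⟨A, hA0, ξ, hξ, ?_, ?_⟩
  · -- r small
    have key : ∀ r : ℕ, 1 ≤ r → r ≤ A → ∃ k : ℤ, |ξ * Real.log r - k| ≤ r * (1 / (K * A)) := by
      intro r
      induction r using Nat.strong_induction_on with
      | _ r ih =>
        intro h1 hrA
        rcases Nat.eq_or_lt_of_le h1 with h | h
        · refine ⟨0, ?_⟩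
          rw [← h]
          simp
          positivity
        · obtain ⟨p, hp, s, hs⟩ := Nat.exists_prime_and_dvd (n := r) (by omega)
          have hs1 : 1 ≤ s := by
            rcases Nat.eq_zero_or_pos s with h0 | h0
            · rw [h0, mul_zero] at hs; omega
            · exact h0
          have hsr : s < r := by
            rw [hs]
            have := hp.two_le
            nlinarith
          obtain ⟨k, hk⟩ := ih s hsr hs1 (by omega)
          have hpr : p ≤ r := by rw [hs]; exact Nat.le_mul_of_pos_right p hs1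
          have hpS : p ∈ S := by
            rw [hS, Finset.mem_filter, Finset.mem_Icc]
            exact ⟨⟨hp.one_le, by omega⟩, hp⟩
          obtain ⟨k', hk'⟩ := hξ' p hpS
          have hpT : p ∉ T := by
            intro hpT
            have := hTsub hpT
            rw [Finset.mem_filter, Finset.mem_Ioc] at this
            omega
          have hthp : th p = 0 := by rw [hth]; simp [hpT]
          rw [hthp, sub_zero] at hk'
          refine ⟨k + k', ?_⟩
          have hlog : Real.log r = Real.log p + Real.log s := by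
            rw [hs]
            push_cast
            rw [Real.log_mul]
            · exact_mod_cast hp.ne_zero
            · have : s ≠ 0 := by omega
              exact_mod_cast this
          have hsum : ξ * Real.log r - ((k + k' : ℤ) : ℝ) = (ξ * Real.log p - k') + (ξ * Real.log s - k) := by
            rw [hlog]; push_cast; ring
          rw [hsum]
          refine (abs_add_le _ _).trans ?_
          have h5 : (1:ℝ) + s ≤ r := by
            have : 1 + s ≤ r := by omega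
            exact_mod_cast this
          have h6 : (0:ℝ) < 1 / (K * A) := by positivity
          nlinarith
    intro r h1 h2
    obtain ⟨k, hk⟩ := key r h1 h2
    refine ⟨k, hk.trans ?_⟩
    have h3 : (r:ℝ) ≤ A := by exact_mod_cast h2
    calc (r:ℝ) * (1 / (K * A)) ≤ A * (1 / (K * A)) := by gcongr
      _ = 1 / K := by field_simp
  · intro θ
    set u := Int.fract (-θ) with hu
    have hu0 : 0 ≤ u := Int.fract_nonneg _
    have hu1 : u < 1 := Int.fract_lt_one _
    have hi : ⌊u * K⌋₊ < K := by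
      rw [Nat.floor_lt (by positivity)]
      nlinarith
    set i : Fin K := ⟨⌊u * K⌋₊, hi⟩ with hidef
    set q := eq.symm i with hq
    have hqT : (q : ℕ) ∈ T := q.2
    have hq1 := hTsub hqT
    rw [Finset.mem_filter, Finset.mem_Ioc] at hq1
    have hqS : (q : ℕ) ∈ S := by
      rw [hS, Finset.mem_filter, Finset.mem_Icc]
      exact ⟨⟨by omega, by omega⟩, hq1.2⟩
    obtain ⟨k, hk⟩ := hξ' q hqS
    have hthq : th q = ((⌊u * K⌋₊ : ℕ) : ℝ) / K := by
      rw [hth]
      simp only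
      rw [dif_pos hqT]
      have : eq ⟨(q : ℕ), hqT⟩ = i := by
        rw [show (⟨(q : ℕ), hqT⟩ : T) = q from rfl, hq]
        exact eq.apply_symm_apply i
      rw [this]
    refine ⟨q, hq1.1.1, hq1.1.2, k - ⌊-θ⌋, ?_⟩
    have h3 : ξ * Real.log (q : ℕ) + θ - ((k - ⌊-θ⌋ : ℤ) : ℝ) = (ξ * Real.log (q : ℕ) - th q - k) + (th q - u) := by
      rw [hu, Int.fract]; push_cast; ring
    rw [h3]
    refine (abs_add_le _ _).trans ?_
    have h4 : |th q - u| ≤ 1 / K := by
      rw [hthq, abs_sub_comm, abs_le]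
      have h5 := Nat.floor_le (show 0 ≤ u * K by positivity)
      have h6 := Nat.lt_floor_add_one (u * K)
      constructor
      · have : ((⌊u * K⌋₊ : ℕ) : ℝ) / K ≤ u := by rw [div_le_iff₀ hKpos]; exact h5
        have : (0:ℝ) < 1 / K := by positivity
        linarith
      · rw [sub_le_iff_le_add, ← add_div, le_div_iff₀ hKpos]
        linarith
    have h5 : (1:ℝ) / (K * A) ≤ 1 / K := by
      apply one_div_le_one_div_of_le hKpos
      have : (1:ℝ) ≤ A := by exact_mod_cast hA1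
      nlinarith
    have h6 : (2:ℝ) / K = 1 / K + 1 / K := by ring
    rw [h6]
    linarith

/-- The exceptional (Bohr type) sets. -/
def bohr (ξ δ : ℝ) : Set ℝ := {y : ℝ | y ∈ Ioo (16 : ℝ) 32 ∧ ∃ k : ℤ, |ξ * Real.log y - k| ≤ δ}

theorem measurableSet_bohr (ξ δ : ℝ) : MeasurableSet (bohr ξ δ) := by
  have : bohr ξ δ = Ioo (16 : ℝ) 32 ∩ ⋃ k : ℤ, {y : ℝ | |ξ * Real.log y - k| ≤ δ} := by
    ext y
    simp [bohr]
  rw [this]
  apply measurableSet_Ioo.inter
  apply MeasurableSet.iUnion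
  intro k
  apply measurableSet_le
  · have h : Measurable (fun y : ℝ => ξ * Real.log y - k) := by fun_prop
    exact h.abs
  · exact measurable_const

theorem volume_bohr_le (ξ δ : ℝ) (hξ : 1 ≤ ξ) (hδ0 : 0 ≤ δ) (hδ : δ ≤ 1 / 2) :
    volume (bohr ξ δ) ≤ ENNReal.ofReal (522 * δ) := by
  have hξ0 : 0 < ξ := by linarith
  set I := Finset.Icc ⌈ξ * Real.log 16 - δ⌉ ⌊ξ * Real.log 32 + δ⌋ with hI
  have hsub : bohr ξ δ ⊆ ⋃ k ∈ I, Icc (Real.exp ((k - δ) / ξ)) (Real.exp ((k + δ) / ξ)) := by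
    rintro y ⟨⟨hy1, hy2⟩, k, hk⟩
    have hy0 : 0 < y := by linarith
    rw [abs_le] at hk
    have hl1 : Real.log 16 ≤ Real.log y := Real.log_le_log (by norm_num) hy1.le
    have hl2 : Real.log y ≤ Real.log 32 := Real.log_le_log hy0 hy2.le
    have m1 := mul_le_mul_of_nonneg_left hl1 hξ0.le
    have m2 := mul_le_mul_of_nonneg_left hl2 hξ0.le
    rw [mem_iUnion₂]
    refine ⟨k, ?_, ?_⟩
    · rw [hI, Finset.mem_Icc]
      constructor
      · rw [Int.ceil_le]; linarith
      · rw [Int.le_floor]; linarith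
    · constructor
      · rw [← Real.le_log_iff_exp_le hy0, div_le_iff₀ hξ0]; linarith
      · rw [← Real.log_le_iff_le_exp hy0, le_div_iff₀ hξ0]; linarith
  refine (measure_mono hsub).trans ((measure_biUnion_finset_le _ _).trans ?_)
  have hl : Real.log 32 = Real.log 16 + Real.log 2 := by
    rw [← Real.log_mul (by norm_num) (by norm_num)]; norm_num
  have hl2 := Real.log_two_lt_d9
  have hcard : (I.card : ℝ) ≤ 3 * ξ := by
    rw [hI, Int.card_Icc]
    have h1 := Int.le_ceil (ξ * Real.log 16 - δ)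
    have h2 := Int.floor_le (ξ * Real.log 32 + δ)
    rcases le_or_gt 0 (⌊ξ * Real.log 32 + δ⌋ + 1 - ⌈ξ * Real.log 16 - δ⌉) with h | h
    · have h3 : (((⌊ξ * Real.log 32 + δ⌋ + 1 - ⌈ξ * Real.log 16 - δ⌉).toNat : ℤ) : ℝ) =
        ((⌊ξ * Real.log 32 + δ⌋ + 1 - ⌈ξ * Real.log 16 - δ⌉ : ℤ) : ℝ) := by
        rw [Int.toNat_of_nonneg h]
      have h4 : (((⌊ξ * Real.log 32 + δ⌋ + 1 - ⌈ξ * Real.log 16 - δ⌉).toNat : ℕ) : ℝ) =
        ((⌊ξ * Real.log 32 + δ⌋ + 1 - ⌈ξ * Real.log 16 - δ⌉ : ℤ) : ℝ) := by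
        rw [← h3]; norm_cast
      rw [h4]
      push_cast
      rw [hl] at h2 ⊢
      rw [hl] at h
      nlinarith
    · rw [Int.toNat_of_nonpos h.le]
      simp
      positivity
  have hterm : ∀ k ∈ I, volume (Icc (Real.exp ((k - δ) / ξ)) (Real.exp ((k + δ) / ξ))) ≤
      ENNReal.ofReal (174 * δ / ξ) := by
    intro k hk
    rw [hI, Finset.mem_Icc] at hk
    rw [Real.volume_Icc]
    apply ENNReal.ofReal_le_ofReal
    have h1 : (k : ℝ) ≤ ξ * Real.log 32 + δ := Int.le_floor.mp hk.2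
    have h2 : Real.exp ((k - δ) / ξ) = Real.exp ((k + δ) / ξ) * Real.exp (-(2 * δ / ξ)) := by
      rw [← Real.exp_add]; congr 1; field_simp; ring
    have h3 : 1 - 2 * δ / ξ ≤ Real.exp (-(2 * δ / ξ)) := by
      have := Real.add_one_le_exp (-(2 * δ / ξ)); linarith
    have h4 : Real.exp ((k + δ) / ξ) ≤ 87 := by
      have h5 : (k + δ) / ξ ≤ Real.log 32 + 1 := by
        rw [div_le_iff₀ hξ0]
        nlinarith
      calc Real.exp ((k + δ) / ξ) ≤ Real.exp (Real.log 32 + 1) := Real.exp_le_exp.mpr h5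
        _ = 32 * Real.exp 1 := by rw [Real.exp_add, Real.exp_log (by norm_num)]
        _ ≤ 87 := by have := Real.exp_one_lt_d9; linarith
    have h6 : 0 < Real.exp ((k + δ) / ξ) := Real.exp_pos _
    have h7 : 0 ≤ 2 * δ / ξ := by positivity
    calc Real.exp ((k + δ) / ξ) - Real.exp ((k - δ) / ξ) = Real.exp ((k + δ) / ξ) * (1 - Real.exp (-(2 * δ / ξ))) := by
          rw [h2]; ring
      _ ≤ Real.exp ((k + δ) / ξ) * (2 * δ / ξ) := by gcongr; linarith
      _ ≤ 87 * (2 * δ / ξ) := by gcongr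
      _ = 174 * δ / ξ := by ring
  refine (Finset.sum_le_card_nsmul _ _ _ hterm).trans ?_
  rw [nsmul_eq_mul, ← ENNReal.ofReal_natCast, ← ENNReal.ofReal_mul (by positivity)]
  apply ENNReal.ofReal_le_ofReal
  calc (I.card : ℝ) * (174 * δ / ξ) ≤ (3 * ξ) * (174 * δ / ξ) := by gcongr
    _ = 522 * δ := by field_simp; ring

theorem main : ∃ E : Set ℝ, MeasurableSet E ∧ E ⊆ Set.Ioi 0 ∧ 0 < volume E ∧
    ∀ x ∈ Ioo (1 : ℝ) 2, ∀ N : ℕ, ∃ n : ℕ, N ≤ n ∧ 1 ≤ n ∧
      (n : ℝ) * x ∉ ⋃ (r : ℕ) (_ : 1 ≤ r), (fun y : ℝ => (r : ℝ) * y) '' E := by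
  classical
  have hst : ∀ j : ℕ, ∃ A : ℕ, j ≤ A ∧ ∃ ξ : ℝ, 1 ≤ ξ ∧
    (∀ r : ℕ, 1 ≤ r → r ≤ A → ∃ k : ℤ, |ξ * Real.log r - k| ≤ 1 / ((1000 * 2 ^ j : ℕ) : ℝ)) ∧
    (∀ θ : ℝ, ∃ n : ℕ, A < n ∧ n ≤ 8 * A ∧ ∃ k : ℤ, |ξ * Real.log n + θ - k| ≤ 2 / ((1000 * 2 ^ j : ℕ) : ℝ)) :=
    fun j => stage (1000 * 2 ^ j) (by have : 0 < 2 ^ j := by positivity
                                      omega) j 1
  choose A hA ξ hξ h1 h2 using hst
  set δ : ℕ → ℝ := fun j => 3 / ((1000 * 2 ^ j : ℕ) : ℝ) with hδ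
  set E := Ioo (16 : ℝ) 32 \ ⋃ j, bohr (ξ j) (δ j) with hE
  have hδpos : ∀ j, 0 ≤ δ j := fun j => by rw [hδ]; positivity
  have hδhalf : ∀ j, δ j ≤ 1 / 2 := by
    intro j
    rw [hδ]
    simp only
    have : (1:ℝ) ≤ 2 ^ j := one_le_pow₀ (by norm_num)
    rw [div_le_iff₀ (by positivity)]
    push_cast
    linarith
  refine ⟨E, ?_, ?_, ?_, ?_⟩
  · exact measurableSet_Ioo.diff (MeasurableSet.iUnion fun j => measurableSet_bohr _ _)
  · intro y hy
    have := hy.1.1
    rw [mem_Ioi]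
    linarith
  · have hU : volume (⋃ j, bohr (ξ j) (δ j)) ≤ ENNReal.ofReal 4 := by
      refine (measure_iUnion_le _).trans ?_
      have hs : HasSum (fun j : ℕ => (1566 / 1000 : ℝ) * (1 / 2) ^ j) ((1566 / 1000) * 2) :=
        hasSum_geometric_two.mul_left _
      have h3 : ∑' j, volume (bohr (ξ j) (δ j)) ≤ ENNReal.ofReal ((1566 / 1000) * 2) := by
        rw [← hs.tsum_eq, ENNReal.ofReal_tsum_of_nonneg (fun k => by positivity) hs.summable]
        apply ENNReal.tsum_le_tsum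
        intro j
        refine (volume_bohr_le _ _ (hξ j) (hδpos j) (hδhalf j)).trans (ENNReal.ofReal_le_ofReal (le_of_eq ?_))
        rw [hδ]
        simp only
        push_cast
        rw [one_div, inv_pow]
        field_simp
        norm_num
      exact h3.trans (ENNReal.ofReal_le_ofReal (by norm_num))
    have h4 : volume (Ioo (16:ℝ) 32) = ENNReal.ofReal 16 := by rw [Real.volume_Ioo]; norm_num
    have h5 : volume (Ioo (16:ℝ) 32) ≤ volume E + volume (⋃ j, bohr (ξ j) (δ j)) := by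
      refine (measure_mono ?_).trans (measure_union_le _ _)
      intro y hy
      by_cases h : y ∈ ⋃ j, bohr (ξ j) (δ j)
      · exact Or.inr h
      · exact Or.inl ⟨hy, h⟩
    rw [pos_iff_ne_zero]
    intro h0
    rw [h0, zero_add, h4] at h5
    have h6 := h5.trans hU
    rw [ENNReal.ofReal_le_ofReal_iff (by norm_num)] at h6
    norm_num at h6
  · intro x hx N
    obtain ⟨n, hn1, hn2, k, hk⟩ := h2 N (ξ N * Real.log x)
    have hNA := hA N
    refine ⟨n, by omega, by omega, ?_⟩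
    intro hmem
    rw [mem_iUnion₂] at hmem
    obtain ⟨r, hr, y, hy, hyr⟩ := hmem
    simp only at hyr
    have hr0 : (0:ℝ) < r := by exact_mod_cast hr
    have hn0 : (0:ℝ) < n := by
      have : 0 < n := by omega
      exact_mod_cast this
    have hx0 : (0:ℝ) < x := by linarith [hx.1]
    obtain ⟨⟨hy1, hy2⟩, hyB⟩ := hy
    have hy0 : 0 < y := by linarith
    -- r ≤ A
    have hrA : r ≤ A N := by
      have h6 : (r : ℝ) * 16 ≤ n * 2 := by
        have := hx.2
        have h7 : (r:ℝ) * 16 ≤ r * y := by gcongr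
        have h8 : (n:ℝ) * x ≤ n * 2 := by gcongr
        linarith
      have h9 : (n : ℝ) ≤ 8 * A N := by exact_mod_cast hn2
      have h10 : (r : ℝ) ≤ A N := by linarith
      exact_mod_cast h10
    obtain ⟨k', hk'⟩ := h1 N r hr hrA
    apply hyB
    rw [mem_iUnion]
    refine ⟨N, ⟨hy1, hy2⟩, k - k', ?_⟩
    have hlog : Real.log y = Real.log n + Real.log x - Real.log r := by
      have h11 : Real.log (r * y) = Real.log (n * x) := by rw [hyr]
      rw [Real.log_mul hr0.ne' hy0.ne', Real.log_mul hn0.ne' hx0.ne'] at h11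
      linarith
    have h12 : ξ N * Real.log y - ((k - k' : ℤ) : ℝ) =
        (ξ N * Real.log n + ξ N * Real.log x - k) - (ξ N * Real.log r - k') := by
      rw [hlog]; push_cast; ring
    rw [h12]
    refine (abs_sub _ _).trans ?_
    have h13 : δ N = 2 / ((1000 * 2 ^ N : ℕ) : ℝ) + 1 / ((1000 * 2 ^ N : ℕ) : ℝ) := by
      rw [hδ]; ring
    rw [h13]
    linarith


/-- The negated form of Haight's question: there are a measurable `E` in `(0, infinity)` of positive
measure and a measurable `X` in `(0, infinity)` of positive measure such that for each `x` in `X` there are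
infinitely many positive integers `n` with `n x` outside `F(E)`, the union of the dilates `r E`, `r >= 1`. -/
theorem result : ∃ E : Set ℝ, MeasurableSet E ∧ E ⊆ Set.Ioi 0 ∧ 0 < volume E ∧
    ∃ X : Set ℝ, MeasurableSet X ∧ X ⊆ Set.Ioi 0 ∧ 0 < volume X ∧
      ∀ x ∈ X, {n : ℕ | 1 ≤ n ∧
        (n : ℝ) * x ∉ ⋃ (r : ℕ) (_ : 1 ≤ r), (fun y : ℝ => (r : ℝ) * y) '' E}.Infinite := by
  obtain ⟨E, h1, h2, h3, h4⟩ := main
  refine ⟨E, h1, h2, h3, Ioo 1 2, measurableSet_Ioo, ?_, ?_, ?_⟩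
  · intro x hx
    rw [mem_Ioi]
    linarith [hx.1]
  · rw [Real.volume_Ioo]
    norm_num
  · intro x hx
    rw [Set.infinite_iff_exists_gt]
    intro N
    obtain ⟨n, hn, hn1, hn2⟩ := h4 x hx (N + 1)
    exact ⟨n, ⟨hn1, hn2⟩, by omega⟩

end Pool.Agent.Results.MP_bfec62_an.Haight
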